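import Pool.Agent.W886.CS.Stm1

/-!
# The prefix questions are in `NP`
-/

set_option autoImplicit false

namespace Pool.Agent.W22.CS

open Pool.Agent.NPC Pool.Agent.H620R2.Gauge Pool.Agent.H622R2

theorem poly_take {α β : Type} [TEnc α] [TEnc β] {l : α → List β} {n : α → ℕ} (hl : Poly l)
    (hn : UPoly n) : Poly (fun a => (l a).take (n a)) := by
  refine (NPC.Poly.map (F := fun (_ : α) (p : β × Unit) => p.1) (NPC.Poly.zip hl hn)
    (NPC.Poly.fst (NPC.Poly.snd NPC.Poly.id))).congr fun a => ?_
  have key : ∀ (l : List β) (n : ℕ),
      (l.zip (List.replicate n ())).map (fun p => p.1) = l.take n := by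
    intro l
    induction l with
    | nil => intro n; simp
    | cons b l ih =>
      intro n
      cases n with
      | zero => simp
      | succ n => simp [List.replicate_succ, ih]
  exact key _ _

theorem ustep_sum (s : List Bool × List Bool × Bool) :
    (ustep s).1.length + (ustep s).2.1.length ≤ s.1.length + s.2.1.length := by
  obtain ⟨a, l, b⟩ := s
  unfold ustep
  cases b with
  | true => simp
  | false =>
    match l with
    | [] => simp
    | true :: [] => simp
    | true :: c :: l' => simp; omega
    | false :: l' => simp

theorem length_unpair1 (y : List Bool) : (unpair y).1.length ≤ y.length := by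
  unfold unpair
  simp only [List.length_reverse]
  have key : ∀ (k : ℕ) (s : List Bool × List Bool × Bool),
      (ustep^[k] s).1.length + (ustep^[k] s).2.1.length ≤ s.1.length + s.2.1.length := by
    intro k
    induction k with
    | zero => intro s; exact le_rfl
    | succ k ih =>
      intro s
      rw [Function.iterate_succ_apply]
      exact (ih _).trans (ustep_sum s)
  have := key y.length ([], y, false)
  simp only [List.length_nil, zero_add] at this
  omega

/-- the condition on the witness -/
def good (P : Polynomial ℕ) (z : List Bool) : Prop :=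
  (unpair z).1.length = P.eval (unpair (unpair z).2).1.length + 1 ∧
    (unpair (unpair z).2).2 = (unpair z).1.take (unpair (unpair z).2).2.length

instance (P : Polynomial ℕ) (z : List Bool) : Decidable (good P z) :=
  inferInstanceAs (Decidable (_ ∧ _))

/-- the question -/
def qs (R : ℕ → Polynomial ℕ) (e : ℕ) (z : List Bool) : List Bool :=
  X4.cd R (e, (unpair (unpair z).2).1) (unpair z).1

theorem poly_good (P : Polynomial ℕ) : Poly (fun z => decide (good P z)) := by
  have hfst : Poly (fun y : List Bool => (unpair y).1) := Poly.fst poly_unpair
  have hsnd : Poly (fun y : List Bool => (unpair y).2) := Poly.snd poly_unpair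
  have hx : Poly (fun z : List Bool => (unpair (unpair z).2).1) := hfst.comp hsnd
  have hs : Poly (fun z : List Bool => (unpair (unpair z).2).2) := hsnd.comp hsnd
  refine Poly.decide_and ?_ ?_
  · exact Poly.decide_eq (Poly.length hfst)
      (Poly.succ (UPoly.toPoly ((UPoly.length hx).eval P)))
  · exact Poly.decide_eq hs (poly_take hfst (UPoly.length hs))

theorem poly_qs (R : ℕ → Polynomial ℕ) (e : ℕ) : Poly (qs R e) := by
  have hfst : Poly (fun y : List Bool => (unpair y).1) := Poly.fst poly_unpair
  have hsnd : Poly (fun y : List Bool => (unpair y).2) := Poly.snd poly_unpair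
  have hx : Poly (fun z : List Bool => (unpair (unpair z).2).1) := hfst.comp hsnd
  exact (CC.poly_code R e).comp (Poly.cons (NPC.Poly.const true) (poly_pairBits hfst hx))

/-- the verifier -/
def D (R : ℕ → Polynomial ℕ) (e : ℕ) (P : Polynomial ℕ) (u : List Bool) : List Bool :=
  if (unpair u).2 = [] then
    (if good P (unpair u).1 then false :: qs R e (unpair u).1 else [])
  else true :: (unpair u).2

theorem poly_D (R : ℕ → Polynomial ℕ) (e : ℕ) (P : Polynomial ℕ) : Poly (D R e P) := by
  have hfst : Poly (fun y : List Bool => (unpair y).1) := Poly.fst poly_unpair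
  have hsnd : Poly (fun y : List Bool => (unpair y).2) := Poly.snd poly_unpair
  unfold D
  refine Poly.ite (Poly.decide_eq hsnd (NPC.Poly.const _)) ?_
    (Poly.cons (NPC.Poly.const true) hsnd)
  exact Poly.ite ((poly_good P).comp hfst)
    (Poly.cons (NPC.Poly.const false) ((poly_qs R e).comp hfst)) (NPC.Poly.const _)

theorem task : Pool.Agent.W886.CS.S_NPX := by
  intro R e P A
  refine ⟨fun z => if good P z then [A (qs R e z)] else [], P + 1,
    ⟨⟨D R e P, polyTime_of_poly_list (poly_D R e P), Polynomial.C 2⟩, ?_⟩, ?_⟩
  · intro z
    unfold Alg.out
    simp only [Polynomial.eval_C]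
    by_cases h : good P z
    · have h1 : D R e P (pairBits z []) = false :: qs R e z := by
        unfold D
        rw [unpair_pairBits]
        simp [h]
      have h2 : ∀ b : Bool, D R e P (pairBits z [b]) = [true, b] := by
        intro b
        unfold D
        rw [unpair_pairBits]
        simp
      simp [Alg.run, h1, h2, h]
    · have h1 : D R e P (pairBits z []) = [] := by
        unfold D
        rw [unpair_pairBits]
        simp [h]
      simp [Alg.run, h1, h]
  · intro y
    simp only [Set.mem_setOf_eq]
    constructor
    · rintro ⟨w, hw1, hw2, hw3⟩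
      refine ⟨w, ?_, ?_⟩
      · rw [hw1, Polynomial.eval_add, Polynomial.eval_one]
        exact Nat.add_le_add_right (eval_mono _ (length_unpair1 y)) 1
      · have hg : good P (pairBits w y) := by
          unfold good
          rw [unpair_pairBits]
          exact ⟨hw1, List.prefix_iff_eq_take.1 hw2⟩
        rw [if_pos hg]
        unfold qs
        rw [unpair_pairBits]
        simp only
        rw [hw3]
    · rintro ⟨w, _, hw⟩
      by_cases hg : good P (pairBits w y)
      · rw [if_pos hg] at hw
        unfold good at hg
        rw [unpair_pairBits] at hg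
        refine ⟨w, hg.1, List.prefix_iff_eq_take.2 hg.2, ?_⟩
        unfold qs at hw
        rw [unpair_pairBits] at hw
        simpa using hw
      · rw [if_neg hg] at hw
        cases hw

end Pool.Agent.W22.CS
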