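import Pool.Agent.W336.CS.Stmts

/-! CS-CNT: counting bridges by a parity argument. -/

set_option autoImplicit false

namespace Pool.Agent.W22.CS

open Pool.Agent.W336.CS

section
variable {G : Type} [Group G] [DecidableEq G]

open Classical in
/-- indicator of the component of the first end of `e` after deletion of `e` -/
noncomputable def fe (B : Set G) (ω : Cfg G) (e : G × G) (x : G) : ZMod 2 :=
  if Conn B (Function.update ω e false) e.1 x then 1 else 0

theorem fe_congr {B : Set G} {ω : Cfg G} {e : G × G} {x y : G}
    (h : adj B (Function.update ω e false) x y) : fe B ω e x = fe B ω e y := by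
  unfold fe
  have : Conn B (Function.update ω e false) e.1 x ↔ Conn B (Function.update ω e false) e.1 y :=
    ⟨fun h1 => h1.trans _ _ _ (.rel _ _ h), fun h1 => h1.trans _ _ _ (.symm _ _ (.rel _ _ h))⟩
  classical
  by_cases h1 : Conn B (Function.update ω e false) e.1 x
  · rw [if_pos h1, if_pos (this.1 h1)]
  · rw [if_neg h1, if_neg (fun h2 => h1 (this.2 h2))]

theorem fe_mul {B : Set G} {ω : Cfg G} {e : G × G} {b x : G} (hb : b ∈ B) :
    fe B ω e (b * x) = fe B ω e x := (fe_congr (Or.inl ⟨b, hb, rfl⟩)).symm

theorem fe_edge {B : Set G} {ω : Cfg G} {e e' : G × G} (hne : e' ≠ e) (h : ω e' = true) :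
    fe B ω e e'.1 = fe B ω e (e'.2 * e'.1) := by
  refine fe_congr (Or.inr ⟨e'.2, ?_, rfl⟩)
  have : ((e'.1, e'.2) : G × G) = e' := rfl
  rw [this, Function.update_of_ne hne]
  exact h

theorem fe_src (B : Set G) (ω : Cfg G) (e : G × G) : fe B ω e e.1 = 1 := by
  unfold fe
  rw [if_pos]
  exact .refl _

theorem fe_tgt {B : Set G} {ω : Cfg G} {e : G × G} (h : Bridge B ω e) :
    fe B ω e (e.2 * e.1) = 0 := by
  unfold fe
  rw [if_neg]
  exact h

end

/-- a function invariant under `B` which vanishes on `V \ D` and on the representatives -/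
theorem inv_orbit {G : Type} [Group G] {B D V : Finset G} (f : G → ZMod 2)
    (hf : ∀ b ∈ B, ∀ x, f (b * x) = f x) (hBD : ∀ b ∈ B, ∀ x ∈ D, b * x ∈ V)
    (h0 : ∀ x ∈ V, x ∉ D → f x = 0) {x : G} (hx : x ∈ D) (hfx : f x ≠ 0) :
    ∀ u ∈ Subgroup.closure (B : Set G), u * x ∈ D ∧ f (u * x) = f x := by
  classical
  set D' := D.filter (fun y => f y = f x) with hD'
  have hb : ∀ b ∈ B, ∀ y ∈ D', b * y ∈ D' := by
    intro b hb y hy
    rw [hD', Finset.mem_filter] at hy ⊢
    have h1 : f (b * y) = f x := (hf b hb y).trans hy.2
    refine ⟨?_, h1⟩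
    by_contra hcon
    exact hfx (h1 ▸ h0 _ (hBD b hb y hy.1) hcon)
  have hU : ∀ u ∈ Subgroup.closure (B : Set G), ∀ y ∈ D', u * y ∈ D' := by
    intro u hu
    induction hu using Subgroup.closure_induction with
    | mem b hb' => exact hb b hb'
    | one => intro y hy; simpa using hy
    | mul u v _ _ ihu ihv =>
      intro y hy
      rw [mul_assoc]
      exact ihu _ (ihv y hy)
    | inv u _ ih =>
      have hmaps : Set.MapsTo (fun y => u * y) (D' : Set G) D' := fun y hy => ih y hy
      have hinj : Set.InjOn (fun y => u * y) (D' : Set G) := fun a _ b _ hab => by simpa using hab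
      have hsurj := ((D'.finite_toSet.injOn_iff_bijOn_of_mapsTo hmaps).1 hinj).surjOn
      intro y hy
      obtain ⟨z, hz, hzy⟩ := hsurj hy
      have : u⁻¹ * y = z := by rw [← hzy]; simp
      rw [this]
      exact hz
  intro u hu
  have := hU u hu x (by rw [hD', Finset.mem_filter]; exact ⟨hx, rfl⟩)
  rw [hD', Finset.mem_filter] at this
  exact this

/-- representatives of the orbits contained in `D` -/
theorem exists_reps {G : Type} [Group G] (U : Subgroup G) (D : Finset G) :
    ∃ R : Finset G, (R.card : ℝ) ≤ D.card / Nat.card U ∧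
      ∀ x ∈ D, (∀ u ∈ U, u * x ∈ D) → ∃ u ∈ U, u * x ∈ R := by
  classical
  by_cases hU : Finite U
  swap
  · refine ⟨∅, by rw [Finset.card_empty, Nat.cast_zero]; positivity, ?_⟩
    intro x _ hux
    exfalso
    apply hU
    have hinj : Function.Injective (fun u : U => (⟨(u : G) * x, hux u u.2⟩ : D)) := by
      intro u v huv
      have := congrArg Subtype.val huv
      simp only at this
      exact Subtype.ext (mul_right_cancel this)
    exact Finite.of_injective _ hinj
  · set rep : G → G := fun x => (Quotient.mk (QuotientGroup.rightRel U) x).out with hrep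
    have hmk : ∀ x, Quotient.mk (QuotientGroup.rightRel U) (rep x) =
        Quotient.mk (QuotientGroup.rightRel U) x := fun x => Quotient.out_eq _
    have hrel : ∀ x y, Quotient.mk (QuotientGroup.rightRel U) x =
        Quotient.mk (QuotientGroup.rightRel U) y → y * x⁻¹ ∈ U := by
      intro x y h
      have := Quotient.exact h
      exact QuotientGroup.rightRel_apply.1 this
    set D0 := D.filter (fun x => ∀ u ∈ U, u * x ∈ D) with hD0
    refine ⟨D0.image rep, ?_, ?_⟩
    · have hpos : (0 : ℝ) < Nat.card U := by
        exact_mod_cast Nat.card_pos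
      rw [le_div_iff₀ hpos]
      have hmem : ∀ r ∈ D0.image rep, ∀ u ∈ U, u * r ∈ D := by
        intro r hr u hu
        obtain ⟨x, hx, rfl⟩ := Finset.mem_image.1 hr
        rw [hD0, Finset.mem_filter] at hx
        have h1 := hrel _ _ (hmk x).symm
        have := hx.2 (u * (rep x * x⁻¹)) (U.mul_mem hu h1)
        simpa [mul_assoc] using this
      have hrr : ∀ r ∈ D0.image rep, rep r = r := by
        intro r hr
        obtain ⟨x, hx, rfl⟩ := Finset.mem_image.1 hr
        change (Quotient.mk (QuotientGroup.rightRel U) (rep x)).out = rep x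
        rw [hmk x]
      have hinj : Function.Injective (fun p : {r // r ∈ D0.image rep} × U =>
          (⟨(p.2 : G) * p.1, hmem p.1 p.1.2 p.2 p.2.2⟩ : D)) := by
        rintro ⟨r, u⟩ ⟨s, v⟩ h
        have h1 : (u : G) * r = v * s := congrArg Subtype.val h
        have h2 : Quotient.mk (QuotientGroup.rightRel U) (r : G) =
            Quotient.mk (QuotientGroup.rightRel U) (s : G) := by
          apply Quotient.sound
          change QuotientGroup.rightRel U r s
          rw [QuotientGroup.rightRel_apply]
          have : (s : G) * (r : G)⁻¹ = (v : G)⁻¹ * u := by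
            rw [mul_inv_eq_iff_eq_mul, mul_assoc, h1]
            simp
          rw [this]
          exact U.mul_mem (U.inv_mem v.2) u.2
        have h3 : (r : G) = s := by
          rw [← hrr r r.2, ← hrr s s.2]
          change (Quotient.mk (QuotientGroup.rightRel U) (r : G)).out =
            (Quotient.mk (QuotientGroup.rightRel U) (s : G)).out
          rw [h2]
        have h4 : r = s := Subtype.ext h3
        subst h4
        have h5 : u = v := Subtype.ext (mul_right_cancel h1)
        rw [h5]
      have := Nat.card_le_card_of_injective _ hinj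
      rw [Nat.card_prod, Nat.card_eq_fintype_card, Fintype.card_coe, Nat.card_eq_fintype_card (α := D),
        Fintype.card_coe] at this
      exact_mod_cast this
    · intro x hx hux
      refine ⟨rep x * x⁻¹, hrel _ _ (hmk x).symm, ?_⟩
      rw [inv_mul_cancel_right]
      exact Finset.mem_image.2 ⟨x, by rw [hD0, Finset.mem_filter]; exact ⟨hx, hux⟩, rfl⟩

theorem cnt : S_cnt := by
  classical
  intro G _ _ B D V ω Z hZ hDV hBD
  obtain ⟨R, hR, hRr⟩ := exists_reps (Subgroup.closure (B : Set G)) D
  set T : Finset G := (V \ D) ∪ R with hT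
  have hTc : (T.card : ℝ) ≤ (V \ D).card + D.card / Nat.card (Subgroup.closure (B : Set G)) := by
    have : (T.card : ℝ) ≤ (V \ D).card + R.card := by exact_mod_cast Finset.card_union_le _ _
    linarith
  refine le_trans ?_ hTc
  -- the linear map
  let L : (Z → ZMod 2) →ₗ[ZMod 2] (T → ZMod 2) :=
    { toFun := fun c t => ∑ e : Z, c e * fe (B : Set G) ω e t
      map_add' := by
        intro c d
        funext t
        simp only [Pi.add_apply, add_mul, Finset.sum_add_distrib]
      map_smul' := by
        intro a c
        funext t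
        simp only [Pi.smul_apply, smul_eq_mul, RingHom.id_apply, Finset.mul_sum, mul_assoc] }
  have hinj : Function.Injective L := by
    rw [← LinearMap.ker_eq_bot, LinearMap.ker_eq_bot']
    intro c hc
    set f : G → ZMod 2 := fun x => ∑ e : Z, c e * fe (B : Set G) ω e x with hf
    have hfT : ∀ t ∈ T, f t = 0 := fun t ht => congrFun hc ⟨t, ht⟩
    have hfB : ∀ b ∈ B, ∀ x, f (b * x) = f x := by
      intro b hb x
      rw [hf]
      simp only
      refine Finset.sum_congr rfl fun e _ => ?_
      rw [fe_mul (Finset.mem_coe.2 hb)]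
    have hf0 : ∀ x ∈ V, x ∉ D → f x = 0 := by
      intro x hx hxD
      apply hfT
      rw [hT, Finset.mem_union, Finset.mem_sdiff]
      exact Or.inl ⟨hx, hxD⟩
    have hfV : ∀ x ∈ V, f x = 0 := by
      intro x hx
      by_contra hne
      have hxD : x ∈ D := by
        by_contra hxD
        exact hne (hf0 x hx hxD)
      have horb := inv_orbit f hfB hBD hf0 hxD hne
      obtain ⟨u, hu, hur⟩ := hRr x hxD (fun u hu => (horb u hu).1)
      have h1 : f (u * x) = 0 := hfT _ (by rw [hT, Finset.mem_union]; exact Or.inr hur)
      rw [(horb u hu).2] at h1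
      exact hne h1
    funext e
    have h1 := hfV _ (hDV (hZ e e.2).1)
    have h2 := hfV _ (hZ e e.2).2.1
    have h3 : f (e : G × G).1 - f ((e : G × G).2 * (e : G × G).1) = c e := by
      rw [hf]
      simp only
      rw [← Finset.sum_sub_distrib, Finset.sum_eq_single e]
      · rw [fe_src, fe_tgt (hZ e e.2).2.2.2]
        ring
      · intro e' _ hne
        rw [fe_edge (e := (e' : G × G)) (e' := (e : G × G)) (fun h => hne (Subtype.ext h.symm))
          (hZ e e.2).2.2.1]
        ring
      · intro h
        exact absurd (Finset.mem_univ _) h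
    rw [h1, h2] at h3
    simpa using h3.symm
  have h1 := LinearMap.finrank_le_finrank_of_injective hinj
  rw [Module.finrank_fintype_fun_eq_card, Module.finrank_fintype_fun_eq_card, Fintype.card_coe,
    Fintype.card_coe] at h1
  exact_mod_cast h1

end Pool.Agent.W22.CS
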