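import Pool.Agent.W336.CS.Stmts

/-! CS-FIN: assembly of the group part and the reduction `S_fin → S_lf`. -/

set_option autoImplicit false

namespace Pool.Agent.W22.CS

open Pool.Agent.W336.CS
open scoped Pointwise

theorem mem_zpow {H : Type} [Group H] {V : Subgroup H} {a b : V} :
    a ∈ Subgroup.zpowers b ↔ (a : H) ∈ Subgroup.zpowers (b : H) := by
  rw [Subgroup.mem_zpowers_iff, Subgroup.mem_zpowers_iff]
  constructor
  · rintro ⟨n, rfl⟩
    exact ⟨n, by simp⟩
  · rintro ⟨n, hn⟩
    exact ⟨n, Subtype.ext (by simpa using hn)⟩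

theorem mal_subgroupOf {H : Type} [Group H] {E V : Subgroup H} (hE : MalIn E V) :
    Mal (E.subgroupOf V) := by
  intro w x hx hx1 hw
  rw [Subgroup.mem_subgroupOf] at hx hw ⊢
  refine hE.2 w w.2 x hx ?_ ?_
  · intro h
    exact hx1 (Subtype.ext h)
  · simpa using hw

theorem ne_top_of_malIn {H : Type} [Group H] {E V : Subgroup H} (hE : MalIn E V) :
    E.subgroupOf V ≠ ⊤ := by
  intro h
  rw [Subgroup.subgroupOf_eq_top] at h
  exact absurd hE.1 (not_lt_of_ge h)

theorem fin : S_stab → S_kappa → S_comp → S_find → S_fin := by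
  intro hst hka hco hfi H _ h2 hc hn
  by_contra hinf
  rw [not_finite_iff_infinite] at hinf
  obtain ⟨c, hc1⟩ := exists_ne (1 : H)
  obtain ⟨Y', -, hY'inf, E, hEfin, hcE, hY'⟩ := hst H h2 hc hn c Set.univ hc1 Set.infinite_univ
  obtain ⟨y, hy⟩ := hY'inf.nonempty
  have hM := hY' y hy
  set V := Subgroup.closure ({c, y} : Set H) with hV
  have hVfin : Finite V := h2 c y
  have hne : E.subgroupOf V ≠ ⊥ := by
    intro h
    have h1 : (⟨c, hM.1.le hcE⟩ : V) ∈ E.subgroupOf V := by
      rw [Subgroup.mem_subgroupOf]
      exact hcE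
    rw [h, Subgroup.mem_bot] at h1
    exact hc1 (congrArg Subtype.val h1)
  obtain ⟨k, d, hk, hd, hdk, hor⟩ := hfi V (E.subgroupOf V) (mal_subgroupOf hM)
    (ne_top_of_malIn hM) hne
  have hk1 : (k : H) ≠ 1 := by
    intro h
    have : k = 1 := Subtype.ext h
    rw [this, orderOf_one] at hk
    exact Nat.not_prime_one hk
  have hdk' : (d : H) * k * (d : H)⁻¹ ∈ Subgroup.zpowers (k : H) := by
    have := mem_zpow.1 hdk
    simpa using this
  obtain ⟨V2, E2, hV2, hkE, hdE, hM2⟩ := hka H h2 hc hn (k : H) (d : H) hk1 hdk'
  have hV2fin : Finite V2 := hV2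
  have hkV : (k : H) ∈ V2 := hM2.1.le hkE
  have hdV : (d : H) ∈ V2 := hM2.1.le hdE
  refine hco V2 (E2.subgroupOf V2) (mal_subgroupOf hM2) (ne_top_of_malIn hM2)
    ⟨k, hkV⟩ ⟨d, hdV⟩ (by rw [Subgroup.mem_subgroupOf]; exact hkE)
    (by rw [Subgroup.mem_subgroupOf]; exact hdE) ?_ ?_ ?_
  · rw [Subgroup.orderOf_mk, Subgroup.orderOf_coe]
    exact hk
  · rw [Subgroup.orderOf_mk, Subgroup.orderOf_coe]
    exact hd
  · rcases hor with ⟨h1, h3, h4⟩ | ⟨h1, h3⟩
    · refine Or.inl ⟨?_, ?_, ?_⟩
      · apply Subtype.ext
        have := congrArg Subtype.val h1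
        simpa using this
      · rw [Subgroup.orderOf_mk, Subgroup.orderOf_mk, Subgroup.orderOf_coe, Subgroup.orderOf_coe]
        exact h3
      · intro h5
        exact h4 (mem_zpow.2 (by simpa using mem_zpow.1 h5))
    · refine Or.inr ⟨?_, ?_⟩
      · intro h5
        apply h1
        apply Subtype.ext
        have := congrArg Subtype.val h5
        simpa using this
      · apply mem_zpow.2
        simpa using hdk'

/-- maximal finite subgroups with a property exist -/
theorem exists_maximal {H : Type} [Group H] (hn : NoInfLF H) (P : Subgroup H → Prop)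
    (hP : ∀ A, P A → (A : Set H).Finite) (A0 : Subgroup H) (h0 : P A0) :
    ∃ A, A0 ≤ A ∧ P A ∧ ∀ B, P B → A ≤ B → B = A := by
  classical
  have key := zorn_le_nonempty₀ {A | P A} (by
    intro C hC hch y hy
    have hdir : DirectedOn (· ≤ ·) C := hch.directedOn
    have hne : C.Nonempty := ⟨y, hy⟩
    -- a finite subset of the union lies in a member
    have hfs : ∀ s : Finset H, (s : Set H) ⊆ (sSup C : Subgroup H) → ∃ A ∈ C, (s : Set H) ⊆ A := by
      intro s
      induction s using Finset.induction_on with
      | empty => exact fun _ => ⟨y, hy, by simp⟩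
      | insert a s _ ih =>
        intro hs
        rw [Finset.coe_insert, Set.insert_subset_iff] at hs
        obtain ⟨A, hA, hsA⟩ := ih hs.2
        obtain ⟨B, hB, haB⟩ := (Subgroup.mem_sSup_of_directedOn hne hdir).1 hs.1
        obtain ⟨D, hD, hAD, hBD⟩ := hdir A hA B hB
        refine ⟨D, hD, ?_⟩
        rw [Finset.coe_insert, Set.insert_subset_iff]
        exact ⟨hBD haB, hsA.trans hAD⟩
    have hLF : LF (sSup C : Subgroup H) := by
      intro s hs
      obtain ⟨A, hA, hsA⟩ := hfs s hs
      exact (hP A (hC hA)).subset ((Subgroup.closure_le A).2 hsA)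
    have hfin := hn _ hLF
    obtain ⟨A, hA, hsA⟩ := hfs hfin.toFinset (by simp)
    refine ⟨A, hC hA, fun B hB => ?_⟩
    intro x hx
    exact hsA (by simpa using (le_sSup hB : B ≤ sSup C) hx)) A0 h0
  obtain ⟨A, hA0, hA⟩ := key
  exact ⟨A, hA0, hA.1, fun B hB hAB => le_antisymm (hA.2 hB hAB) hAB⟩

/-- fibres of the quotient map are finite -/
theorem mk_fib {Z : Type} [Group Z] (A : Subgroup Z) (hA : (A : Set Z).Finite) (T : Set (Z ⧸ A))
    (hT : T.Finite) : ((fun z : Z => (QuotientGroup.mk z : Z ⧸ A)) ⁻¹' T).Finite := by
  refine hT.preimage' ?_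
  intro b _
  obtain ⟨z, rfl⟩ := QuotientGroup.mk_surjective b
  refine (hA.image (fun a => z * a)).subset ?_
  intro y hy
  rw [Set.mem_preimage, Set.mem_singleton_iff] at hy
  have : z⁻¹ * y ∈ A := QuotientGroup.eq.1 hy.symm
  exact ⟨z⁻¹ * y, this, by simp⟩

theorem lf : S_fin → S_lf := by
  classical
  intro hfin H _ h2 hn
  by_contra hinf
  rw [not_finite_iff_infinite] at hinf
  have hzp : ∀ z : H, (Subgroup.zpowers z : Set H).Finite := by
    intro z
    have := h2 z z
    rwa [Set.insert_eq_self.2 (Set.mem_singleton z), ← Subgroup.zpowers_eq_closure] at this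
  let P : Subgroup H → Prop := fun A => (A : Set H).Finite ∧ (∀ a ∈ A, ∀ b ∈ A, a * b = b * a) ∧
    (Subgroup.centralizer (A : Set H) : Set H).Infinite
  have hPbot : P ⊥ := by
    refine ⟨by simp, ?_, ?_⟩
    · intro a ha b _
      rw [Subgroup.mem_bot] at ha
      rw [ha]
      simp
    · have : Subgroup.centralizer (((⊥ : Subgroup H) : Set H)) = ⊤ := by
        rw [eq_top_iff]
        intro x _
        rw [Subgroup.mem_centralizer_iff]
        intro h hh
        have : h = 1 := by simpa using hh
        rw [this]
        simp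
      rw [this]
      exact Set.infinite_univ
  obtain ⟨A, -, ⟨hAfin, hAab, hAcent⟩, hAmax⟩ := exists_maximal hn P (fun A h => h.1) ⊥ hPbot
  set Z := Subgroup.centralizer (A : Set H) with hZ
  have hAZ : A ≤ Z := by
    intro a ha
    rw [hZ, Subgroup.mem_centralizer_iff]
    intro b hb
    exact hAab b hb a ha
  have hcomm : ∀ z ∈ Z, ∀ a ∈ A, z * a = a * z := by
    intro z hz a ha
    rw [hZ, Subgroup.mem_centralizer_iff] at hz
    exact (hz a ha).symm
  set A' := A.subgroupOf Z with hA'
  have hA'n : A'.Normal := by
    constructor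
    intro a ha z
    rw [hA', Subgroup.mem_subgroupOf] at ha ⊢
    have : ((z * a * z⁻¹ : Z) : H) = a := by
      push_cast
      rw [hcomm z z.2 a ha]
      simp
    rw [this]
    exact ha
  have hA'fin : (A' : Set Z).Finite := by
    have : (A' : Set Z) = (Subtype.val) ⁻¹' (A : Set H) := rfl
    rw [this]
    exact hAfin.preimage Subtype.val_injective.injOn
  have hZinf : Infinite Z := hAcent.to_subtype
  -- the quotient
  have hQfin : Finite (Z ⧸ A') := by
    refine hfin (Z ⧸ A') ?_ ?_ ?_
    · -- Fin2
      intro a b
      obtain ⟨a, rfl⟩ := QuotientGroup.mk'_surjective A' a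
      obtain ⟨b, rfl⟩ := QuotientGroup.mk'_surjective A' b
      have h1 : Subgroup.closure ({QuotientGroup.mk' A' a, QuotientGroup.mk' A' b} : Set (Z ⧸ A')) =
          (Subgroup.closure ({a, b} : Set Z)).map (QuotientGroup.mk' A') := by
        rw [MonoidHom.map_closure, Set.image_pair]
      rw [h1, Subgroup.coe_map]
      apply Set.Finite.image
      have h3 : (Subgroup.closure ({a, b} : Set Z)).map Z.subtype =
          Subgroup.closure ({(a : H), (b : H)} : Set H) := by
        rw [MonoidHom.map_closure, Set.image_pair]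
        rfl
      have h4 : ((Subgroup.closure ({a, b} : Set Z)).map Z.subtype : Set H).Finite := by
        rw [h3]
        exact h2 a b
      rw [Subgroup.coe_map] at h4
      exact Set.Finite.of_finite_image h4 (Subtype.val_injective.injOn)
    · -- FinCent
      intro a ha
      obtain ⟨z, rfl⟩ := QuotientGroup.mk'_surjective A' a
      have hzA : (z : H) ∉ A := by
        intro h
        apply ha
        rw [QuotientGroup.mk'_apply, QuotientGroup.eq_one_iff]
        exact h
      -- the subgroup generated by A and z
      have hBset : ((A' ⊔ Subgroup.zpowers z : Subgroup Z) : Set Z) =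
          (A' : Set Z) * (Subgroup.zpowers z : Set Z) := Subgroup.normal_mul A' _
      have hzfin : (Subgroup.zpowers z : Set Z).Finite := by
        have h4 : ((Subgroup.zpowers z).map Z.subtype : Set H).Finite := by
          rw [MonoidHom.map_zpowers]
          exact hzp _
        rw [Subgroup.coe_map] at h4
        exact Set.Finite.of_finite_image h4 (Subtype.val_injective.injOn)
      set B := (A' ⊔ Subgroup.zpowers z).map Z.subtype with hB
      have hBmem : ∀ x ∈ B, ∃ a ∈ A, ∃ i : ℤ, x = a * (z : H) ^ i := by
        rintro _ ⟨x, hx, rfl⟩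
        rw [hBset, Set.mem_mul] at hx
        obtain ⟨a, ha, w, hw, rfl⟩ := hx
        obtain ⟨i, rfl⟩ := Subgroup.mem_zpowers_iff.1 hw
        exact ⟨a, ha, i, by simp⟩
      have hBfin : (B : Set H).Finite := by
        rw [hB, Subgroup.coe_map]
        apply Set.Finite.image
        rw [hBset]
        exact hA'fin.mul hzfin
      have hAB : A ≤ B := by
        intro a ha
        exact ⟨⟨a, hAZ ha⟩, Subgroup.mem_sup_left (by rw [hA', Subgroup.mem_subgroupOf]; exact ha),
          rfl⟩
      have hzB : (z : H) ∈ B := ⟨z, Subgroup.mem_sup_right (Subgroup.mem_zpowers z), rfl⟩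
      have hcz : ∀ a ∈ A, Commute (z : H) a := fun a ha => hcomm z z.2 a ha
      have hBab : ∀ x ∈ B, ∀ y ∈ B, x * y = y * x := by
        intro x hx y hy
        obtain ⟨a, ha, i, rfl⟩ := hBmem x hx
        obtain ⟨b, hb, j, rfl⟩ := hBmem y hy
        have hab : Commute a b := hAab a ha b hb
        have h5 : Commute (a * (z : H) ^ i) (b * (z : H) ^ j) := by
          refine Commute.mul_left (Commute.mul_right hab ?_) (Commute.mul_right ?_ ?_)
          · exact ((hcz a ha).zpow_left j).symm
          · exact (hcz b hb).zpow_left i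
          · exact (Commute.refl (z : H)).zpow_zpow i j
        exact h5
      have hBc : (Subgroup.centralizer (B : Set H) : Set H).Finite := by
        by_contra hcon
        have := hAmax B ⟨hBfin, hBab, hcon⟩ hAB
        rw [this] at hzB
        exact hzA hzB
      -- the finite set D
      have hD : {y : Z | y * z * y⁻¹ * z⁻¹ ∈ A'}.Finite := by
        have h6 : {y : Z | y * z * y⁻¹ * z⁻¹ ∈ A'} = (fun y : Z => y * z * y⁻¹ * z⁻¹) ⁻¹' A' := rfl
        rw [h6]
        refine hA'fin.preimage' ?_
        intro b _
        by_cases hne : ((fun y : Z => y * z * y⁻¹ * z⁻¹) ⁻¹' {b}).Nonempty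
        · obtain ⟨y0, hy0⟩ := hne
          have hC : {w : Z | w * z = z * w}.Finite := by
            have h7 : (Subtype.val '' {w : Z | w * z = z * w} : Set H).Finite := by
              refine hBc.subset ?_
              rintro _ ⟨w, hw, rfl⟩
              rw [SetLike.mem_coe, Subgroup.mem_centralizer_iff]
              intro x hx
              obtain ⟨a, ha, i, rfl⟩ := hBmem x hx
              have h8 : Commute (w : H) z := congrArg Subtype.val hw
              have h9 : Commute (w : H) a := hcomm w w.2 a ha
              exact (h9.mul_right (h8.zpow_right i)).symm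
            exact Set.Finite.of_finite_image h7 (Subtype.val_injective.injOn)
          refine (hC.image (fun w => y0 * w)).subset ?_
          intro y hy
          rw [Set.mem_preimage, Set.mem_singleton_iff] at hy hy0
          refine ⟨y0⁻¹ * y, ?_, by simp⟩
          have h10 : y * z * y⁻¹ = y0 * z * y0⁻¹ := by
            have := hy.trans hy0.symm
            exact mul_right_cancel this
          have h11 : y0⁻¹ * y * z = z * (y0⁻¹ * y) := by
            calc y0⁻¹ * y * z = y0⁻¹ * (y * z * y⁻¹) * y := by group
              _ = y0⁻¹ * (y0 * z * y0⁻¹) * y := by rw [h10]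
              _ = z * (y0⁻¹ * y) := by group
          exact h11
        · rw [Set.not_nonempty_iff_eq_empty] at hne
          rw [hne]
          exact Set.finite_empty
      refine (hD.image (QuotientGroup.mk' A')).subset ?_
      intro x hx
      obtain ⟨y, rfl⟩ := QuotientGroup.mk'_surjective A' x
      refine ⟨y, ?_, rfl⟩
      have h12 : QuotientGroup.mk' A' (y * z * y⁻¹ * z⁻¹) = 1 := by
        have h13 : QuotientGroup.mk' A' y * QuotientGroup.mk' A' z =
          QuotientGroup.mk' A' z * QuotientGroup.mk' A' y := hx
        rw [map_mul, map_mul, map_mul, h13, map_inv, map_inv]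
        group
      rw [QuotientGroup.mk'_apply, QuotientGroup.eq_one_iff] at h12
      exact h12
    · -- NoInfLF
      intro M hM
      set L := M.comap (QuotientGroup.mk' A') with hL
      have hLLF : LF (L.map Z.subtype) := by
        intro s hs
        have hsZ : ∀ x ∈ s, x ∈ Z := by
          intro x hx
          obtain ⟨y, -, rfl⟩ := hs hx
          exact y.2
        set s' : Finset Z := s.preimage Subtype.val (Subtype.val_injective.injOn) with hs'
        have himg : (Subtype.val '' (s' : Set Z) : Set H) = s := by
          ext x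
          constructor
          · rintro ⟨y, hy, rfl⟩
            rw [hs', Finset.coe_preimage] at hy
            exact hy
          · intro hx
            exact ⟨⟨x, hsZ x hx⟩, by rw [hs', Finset.coe_preimage]; exact hx, rfl⟩
        have h1 : Subgroup.closure (s : Set H) =
            (Subgroup.closure (s' : Set Z)).map Z.subtype := by
          rw [MonoidHom.map_closure, ← himg]
          rfl
        rw [h1, Subgroup.coe_map]
        apply Set.Finite.image
        have h3 : (Subgroup.closure (s' : Set Z)).map (QuotientGroup.mk' A') =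
            Subgroup.closure ((s'.image (QuotientGroup.mk' A') : Finset (Z ⧸ A')) : Set (Z ⧸ A')) := by
          rw [MonoidHom.map_closure, Finset.coe_image]
        have h4 : ((Subgroup.closure (s' : Set Z)).map (QuotientGroup.mk' A') : Set (Z ⧸ A')).Finite := by
          rw [h3]
          apply hM
          intro q hq
          rw [Finset.coe_image] at hq
          obtain ⟨y, hy, rfl⟩ := hq
          have h5 : (y : H) ∈ s := by
            rw [hs', Finset.coe_preimage] at hy
            exact hy
          obtain ⟨w, hw, hwy⟩ := hs h5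
          have h6 : w = y := Subtype.ext hwy
          rw [← h6]
          exact hw
        refine (mk_fib A' hA'fin _ h4).subset ?_
        intro x hx
        exact ⟨x, hx, rfl⟩
      have hLfin := hn _ hLLF
      rw [Subgroup.coe_map] at hLfin
      have hLfin' : (L : Set Z).Finite :=
        Set.Finite.of_finite_image hLfin (Subtype.val_injective.injOn)
      refine (hLfin'.image (QuotientGroup.mk' A')).subset ?_
      intro x hx
      obtain ⟨y, rfl⟩ := QuotientGroup.mk'_surjective A' x
      exact ⟨y, hx, rfl⟩
  have hfull := mk_fib A' hA'fin Set.univ (@Set.finite_univ _ hQfin)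
  rw [Set.preimage_univ, Set.finite_univ_iff] at hfull
  exact not_finite Z

end Pool.Agent.W22.CS
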