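import Pool.Agent.W336.CS.Stmts

/-! The Frobenius kernel relative to a finite subgroup. -/

set_option autoImplicit false

namespace Pool.Agent.W22.CS

open Pool.Agent.W336.CS

/-- Frobenius' theorem in a finite subgroup `V` of `H`. -/
theorem frobIn (hf : S_frob) {H : Type} [Group H] {E V : Subgroup H} (hV : (V : Set H).Finite)
    (hE : MalIn E V) :
    ∃ K : Subgroup H, K ≤ V ∧ (∀ w ∈ V, ∀ u ∈ K, w * u * w⁻¹ ∈ K) ∧
      (∀ u ∈ K, u ∈ E → u = 1) ∧ ∀ y ∈ V, ∃ e ∈ E, ∃ k ∈ K, y = e * k := by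
  obtain ⟨hlt, hmal⟩ := hE
  have hle : E ≤ V := hlt.le
  have : Finite V := hV
  have hM : Mal (E.subgroupOf V) := by
    intro w x hx hx1 hw
    rw [Subgroup.mem_subgroupOf] at hx hw ⊢
    refine hmal w w.2 x hx ?_ ?_
    · intro h
      exact hx1 (Subtype.ext h)
    · simpa using hw
  obtain ⟨K', hK'n, hK'i, hK's⟩ := hf V (E.subgroupOf V) hM
  refine ⟨K'.map V.subtype, ?_, ?_, ?_, ?_⟩
  · rintro _ ⟨u, -, rfl⟩
    exact u.2
  · rintro w hw _ ⟨u, hu, rfl⟩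
    exact ⟨⟨w, hw⟩ * u * ⟨w, hw⟩⁻¹, hK'n.conj_mem u hu ⟨w, hw⟩, by simp⟩
  · rintro _ ⟨u, hu, rfl⟩ huE
    have h1 : u ∈ K' ⊓ E.subgroupOf V := Subgroup.mem_inf.2 ⟨hu, Subgroup.mem_subgroupOf.2 huE⟩
    rw [hK'i, Subgroup.mem_bot] at h1
    rw [h1]
    simp
  · intro y hy
    have h1 : (⟨y, hy⟩ : V) ∈ ((E.subgroupOf V ⊔ K' : Subgroup V) : Set V) := by
      rw [sup_comm, hK's]
      trivial
    rw [Subgroup.mul_normal, Set.mem_mul] at h1
    obtain ⟨e, he, k, hk, hek⟩ := h1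
    refine ⟨e, ?_, k, ⟨k, hk, rfl⟩, ?_⟩
    · rw [SetLike.mem_coe, Subgroup.mem_subgroupOf] at he
      exact he
    · have := congrArg (Subtype.val) hek
      simpa using this.symm

theorem kappa : S_frob → S_stab → S_kappa := by
  intro hf hst H _ _ h2 hc hn c n hc1 hnc
  obtain ⟨Y', -, hY'inf, E, hEfin, hcE, hY'⟩ := hst H h2 hc hn c Set.univ hc1 Set.infinite_univ
  -- pigeonhole
  have hpig : ∃ e ∈ E, {y ∈ Y' | ∃ K : Subgroup H, K ≤ Subgroup.closure ({c, y} : Set H) ∧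
      (∀ w ∈ Subgroup.closure ({c, y} : Set H), ∀ u ∈ K, w * u * w⁻¹ ∈ K) ∧
      (∀ u ∈ K, u ∈ E → u = 1) ∧ e⁻¹ * y ∈ K}.Infinite := by
    by_contra hcon
    push Not at hcon
    apply hY'inf
    refine (hEfin.biUnion (fun e he => hcon e he)).subset ?_
    intro y hy
    obtain ⟨K, hK1, hK2, hK3, hK4⟩ := frobIn hf (h2 c y) (hY' y hy)
    obtain ⟨e, he, k, hk, hyk⟩ := hK4 y (Subgroup.subset_closure (by simp))
    rw [Set.mem_iUnion₂]
    refine ⟨e, he, hy, K, hK1, hK2, hK3, ?_⟩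
    rw [hyk]
    simpa using hk
  obtain ⟨e, he, hinf⟩ := hpig
  have hinf2 := hinf.image (f := fun y => n * (e⁻¹ * y)) (by
    intro a _ b _ hab
    simpa using hab)
  obtain ⟨Y3, hY3, hY3inf, E2, hE2fin, hcE2, hE2⟩ := hst H h2 hc hn c _ hc1 hinf2
  obtain ⟨z, hz⟩ := hY3inf.nonempty
  obtain ⟨y, ⟨hyY, K, hK1, hK2, hK3, hkK⟩, rfl⟩ := hY3 hz
  have hMal2 := hE2 _ hz
  obtain ⟨-, hmal1⟩ := hY' y hyY
  set W := Subgroup.closure ({c, y} : Set H) with hW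
  simp only at hMal2
  set k := e⁻¹ * y with hk
  set V := Subgroup.closure ({c, n * k} : Set H) with hV
  have hVfin : (V : Set H).Finite := h2 c (n * k)
  have hcW : c ∈ W := Subgroup.subset_closure (by simp)
  have hcV : c ∈ V := Subgroup.subset_closure (by simp)
  have hzV : n * k ∈ V := Subgroup.subset_closure (by simp)
  have hncV : n * c * n⁻¹ ∈ V := (Subgroup.zpowers_le.2 hcV) hnc
  have hkck : k⁻¹ * c * k ∈ V := by
    have : (n * k)⁻¹ * (n * c * n⁻¹) * (n * k) ∈ V :=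
      V.mul_mem (V.mul_mem (V.inv_mem hzV) hncV) hzV
    convert this using 1
    group
  -- the map f
  have finj : ∀ u ∈ K, ∀ v ∈ K, c⁻¹ * u⁻¹ * c * u = c⁻¹ * v⁻¹ * c * v → u = v := by
    intro u hu v hv huv
    have hx : v * u⁻¹ ∈ K := K.mul_mem hv (K.inv_mem hu)
    have h1 : (v * u⁻¹) * c * (v * u⁻¹)⁻¹ = c := by
      have h2 : u⁻¹ * c * u = v⁻¹ * c * v := by
        have := congrArg (fun t => c * t) huv
        simpa [mul_assoc] using this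
      calc (v * u⁻¹) * c * (v * u⁻¹)⁻¹ = v * (u⁻¹ * c * u) * v⁻¹ := by group
        _ = v * (v⁻¹ * c * v) * v⁻¹ := by rw [h2]
        _ = c := by group
    have h3 : v * u⁻¹ ∈ E := hmal1 _ (hK1 hx) c hcE hc1 (by rw [h1]; exact hcE)
    have h4 := hK3 _ hx h3
    exact (mul_inv_eq_one.1 h4).symm
  have fmem : ∀ u ∈ K ⊓ V, c⁻¹ * u⁻¹ * c * u ∈ K ⊓ V := by
    intro u hu
    obtain ⟨h1, h2⟩ := hu
    refine ⟨?_, ?_⟩
    · have := hK2 c⁻¹ (W.inv_mem hcW) u⁻¹ (K.inv_mem h1)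
      rw [inv_inv] at this
      exact K.mul_mem this h1
    · exact V.mul_mem (V.mul_mem (V.mul_mem (V.inv_mem hcV) (V.inv_mem h2)) hcV) h2
  have ht : c⁻¹ * k⁻¹ * c * k ∈ K ⊓ V := by
    refine ⟨?_, ?_⟩
    · have := hK2 c⁻¹ (W.inv_mem hcW) k⁻¹ (K.inv_mem hkK)
      rw [inv_inv] at this
      exact K.mul_mem this hkK
    · have := V.mul_mem (V.inv_mem hcV) hkck
      simpa [mul_assoc] using this
  have hfin : ((K ⊓ V : Subgroup H) : Set H).Finite := hVfin.subset (fun x hx => hx.2)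
  have hsurj : Set.SurjOn (fun u => c⁻¹ * u⁻¹ * c * u) ((K ⊓ V : Subgroup H) : Set H)
      ((K ⊓ V : Subgroup H) : Set H) := by
    have hmaps : Set.MapsTo (fun u => c⁻¹ * u⁻¹ * c * u) ((K ⊓ V : Subgroup H) : Set H)
      ((K ⊓ V : Subgroup H) : Set H) := fun u hu => fmem u hu
    have hinj : Set.InjOn (fun u => c⁻¹ * u⁻¹ * c * u) ((K ⊓ V : Subgroup H) : Set H) :=
      fun u hu v hv huv => finj u hu.1 v hv.1 huv
    exact (hfin.injOn_iff_bijOn_of_mapsTo hmaps).1 hinj |>.surjOn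
  obtain ⟨u, hu, hut⟩ := hsurj ht
  have huk : u = k := finj u hu.1 k hkK hut
  have hkV : k ∈ V := huk ▸ hu.2
  have hnV : n ∈ V := by
    have := V.mul_mem hzV (V.inv_mem hkV)
    simpa using this
  exact ⟨V, E2, hVfin, hcE2, hMal2.2 n hnV c hcE2 hc1 ((Subgroup.zpowers_le.2 hcE2) hnc), hMal2⟩

end Pool.Agent.W22.CS
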